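import Mathlib
import Pool.Agent.P.MP_6da505_nt.U.Seq

namespace Pool.Agent.Results.MP_6da505_nt.ElevenEighths

/-- There is an absolute constant `c > 0` such that, for every strictly increasing sequence of
natural numbers and every `n ≥ 2`, if all sums `a i + a j` with `i, j ≤ n` (`i = j` allowed) are
squarefree, then `a n ≥ c * n ^ (11 / 8) / (log n) ^ (33 / 8)`. -/
theorem result : ∃ c : ℝ, 0 < c ∧ ∀ (a : ℕ → ℕ) (n : ℕ), StrictMono a → 2 ≤ n →
    (∀ i ≤ n, ∀ j ≤ n, Squarefree (a i + a j)) →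
    c * (n : ℝ) ^ (11 / 8 : ℝ) / Real.log n ^ (33 / 8 : ℝ) ≤ a n :=
  Pool.Agent.P.MP_6da505_nt.U.seq_bound

end Pool.Agent.Results.MP_6da505_nt.ElevenEighths
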