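import Mathlib
import Pool.Agent.P.MP_6da505_nt.Main

namespace Pool.Agent.Results.MP_6da505_nt.SqrtGrowth

/-- There is an infinite increasing sequence of positive integers `a 0 < a 1 < ...` all of whose
pairwise sums `a m + a n` (with `m = n` allowed) are squarefree, and which satisfies
`a n ≤ exp (C * sqrt n / log n)` for all `n ≥ 2`. -/
theorem result : ∃ C : ℝ, 0 < C ∧ ∃ a : ℕ → ℕ, StrictMono a ∧ (∀ n, 0 < a n) ∧
    (∀ m n, Squarefree (a m + a n)) ∧
    ∀ n : ℕ, 2 ≤ n → (a n : ℝ) ≤ Real.exp (C * Real.sqrt n / Real.log n) :=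
  Pool.Agent.P.MP_6da505_nt.main

end Pool.Agent.Results.MP_6da505_nt.SqrtGrowth
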